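import Mathlib
import Pool.Agent.KS6_5.Kcomp.Core2

/-!
# MP_3437a9_an: a large supply of uncomplemented ideals in separable C*-algebras
-/

namespace Pool.Agent.Results.MP_3437a9_an.UncomplementedIdeals

open Pool.Agent.KS6_5.Kcomp

universe u v w

/-- `I` is the range of a bounded linear projection of `E`. -/
def Complemented {E : Type*} [NormedAddCommGroup E] [NormedSpace ℂ E] (I : Submodule ℂ E) : Prop :=
  ∃ P : E →L[ℂ] E, (∀ x, P x ∈ I) ∧ ∀ x ∈ I, P x = x

/-- `I` is a closed two-sided ideal. -/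
def IsClosedIdeal {E : Type*} [NonUnitalCStarAlgebra E] (I : Submodule ℂ E) : Prop :=
  IsClosed (I : Set E) ∧ ∀ a ∈ I, ∀ b : E, b * a ∈ I ∧ a * b ∈ I

open Pool.Agent.Helper234.Calkin in
theorem exists_A0 : ∃ (A : Type) (_ : CStarAlgebra A) (_ : TopologicalSpace.SeparableSpace A)
    (K : Submodule ℂ A), IsClosedIdeal K ∧
    (∃ φ : A →⋆ₐ[ℂ] BH, Isometry φ ∧ (∀ k : BH, IsCompactOperator (⇑k) → ∃ a, φ a = k) ∧
      ∀ a, a ∈ K ↔ IsCompactOperator (⇑(φ a))) ∧
    ∀ (q : A →ₗ[ℂ] A) (C : ℝ), (∀ a, ‖q a‖ ≤ C * ‖a‖) → (∀ a, q a ∈ K) →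
      (∀ a ∈ K, q a = a) → False := by
  obtain ⟨G, hG, h⟩ := exists_countable
  obtain ⟨S, hS1, hS2, hS3, hS4⟩ := exists_alg G hG.isSeparable
  have : IsClosed (S : Set BH) := hS1
  let _ : CStarAlgebra S := StarSubalgebra.cstarAlgebra S
  have : TopologicalSpace.SeparableSpace S := hS2.separableSpace
  let j : S →L[ℂ] BH := S.toSubalgebra.toSubmodule.subtypeL
  have hj : ∀ a : S, j a = (a : BH) := fun a => rfl
  let K0 : Submodule ℂ BH := compactOperator (RingHom.id ℂ)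
    Pool.Agent.Helper234.Calkin.L2 Pool.Agent.Helper234.Calkin.L2
  have hK0 : IsClosed (K0 : Set BH) := isClosed_setOfPred_isCompactOperator
  let K : Submodule ℂ S := K0.comap (j : S →ₗ[ℂ] BH)
  have hKmem : ∀ a : S, a ∈ K ↔ IsCompactOperator (⇑(a : BH)) := fun a => Iff.rfl
  refine ⟨S, inferInstance, inferInstance, K, ⟨hK0.preimage j.continuous, ?_⟩,
    ⟨S.subtype, fun a b => rfl, fun k hk => ⟨⟨k, hS4 k hk⟩, rfl⟩, fun a => hKmem a⟩, ?_⟩
  · intro a ha b
    rw [hKmem] at ha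
    refine ⟨?_, ?_⟩
    · rw [hKmem]
      exact ha.clm_comp (b : BH)
    · rw [hKmem]
      exact ha.comp_clm (b : BH)
  · intro q C hq1 hq2 hq3
    refine h S.toSubalgebra.toSubmodule hS3 hS4
      ((j : S →ₗ[ℂ] BH) ∘ₗ q) C (fun a => hq1 a) (fun a => hq2 a) ?_
    intro a ha
    show ((q a : S) : BH) = a
    rw [hq3 a ha]

theorem exists_A : ∃ (A : Type) (_ : CStarAlgebra A) (_ : TopologicalSpace.SeparableSpace A)
    (K : Submodule ℂ A), IsClosedIdeal K ∧
    (∃ φ : A →⋆ₐ[ℂ] B, Isometry φ ∧ (∀ k : B, IsCpt k → ∃ a, φ a = k) ∧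
      ∀ a, a ∈ K ↔ IsCpt (φ a)) ∧
    ∀ (q : A →ₗ[ℂ] A) (C : ℝ), (∀ a, ‖q a‖ ≤ C * ‖a‖) → (∀ a, q a ∈ K) →
      (∀ a ∈ K, q a = a) → False :=
  exists_A0

/-- The subspace `{(f, d) | f(x) ∈ K for all x, d ∈ J}` of `C(X, A) × D`. -/
def idealOf {A : Type*} [CStarAlgebra A] (K : Submodule ℂ A) (X : Type*) [TopologicalSpace X]
    [CompactSpace X] {D : Type*} [NonUnitalCStarAlgebra D] (J : Submodule ℂ D) :
    Submodule ℂ (C(X, A) × D) where
  carrier := {f | (∀ x, f.1 x ∈ K) ∧ f.2 ∈ J}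
  add_mem' := fun ha hb => ⟨fun x => K.add_mem (ha.1 x) (hb.1 x), J.add_mem ha.2 hb.2⟩
  zero_mem' := ⟨fun _ => K.zero_mem, J.zero_mem⟩
  smul_mem' := fun c _ ha => ⟨fun x => K.smul_mem c (ha.1 x), J.smul_mem c ha.2⟩

/-- There is a separable unital C*-algebra `A` with a closed ideal `K`, such that `A` is (isometrically
isomorphic to) a C*-subalgebra of `B(ℓ²)` containing all compact operators and `K` is the ideal of
compact operators, with the following properties.

(1) If `I` is a subspace of a normed space `E` and `i : A → E`, `p : E → A` are bounded linear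
maps with `i(K) ⊆ I`, `p(I) ⊆ K` and `p i = id` on `K`, then `I` is not complemented in `E`.

(2) For every nonempty compact space `X`, every C*-algebra `D` and every closed ideal `J` of `D`, the
closed ideal `C(X, K) × J` of the C*-algebra `C(X, A) × D` is not complemented; and `C(X, A) × D`
is separable if `X` is metrizable and `D` is separable. -/
theorem result :
    ∃ (A : Type) (_ : CStarAlgebra A) (_ : TopologicalSpace.SeparableSpace A)
    (K : Submodule ℂ A), IsClosedIdeal K ∧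
    (∃ φ : A →⋆ₐ[ℂ] B, Isometry φ ∧ (∀ k : B, IsCpt k → ∃ a, φ a = k) ∧
      ∀ a, a ∈ K ↔ IsCpt (φ a)) ∧
    (∀ (E : Type u) [NormedAddCommGroup E] [NormedSpace ℂ E] (I : Submodule ℂ E)
      (i : A →L[ℂ] E) (p : E →L[ℂ] A), (∀ a ∈ K, i a ∈ I ∧ p (i a) = a) → (∀ x ∈ I, p x ∈ K) →
      ¬ Complemented I) ∧
    (∀ (X : Type v) [TopologicalSpace X] [CompactSpace X] [Nonempty X] (D : Type w)
      [NonUnitalCStarAlgebra D] (J : Submodule ℂ D), IsClosedIdeal J →
      IsClosedIdeal (idealOf K X J) ∧ ¬ Complemented (idealOf K X J) ∧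
      (TopologicalSpace.MetrizableSpace X → TopologicalSpace.SeparableSpace D →
        TopologicalSpace.SeparableSpace (C(X, A) × D))) := by
  obtain ⟨A, _, _, K, hK, hφ, hA⟩ := exists_A
  have key : ∀ {E : Type u} [NormedAddCommGroup E] [NormedSpace ℂ E] (I : Submodule ℂ E)
      (i : A →L[ℂ] E) (p : E →L[ℂ] A), (∀ a ∈ K, i a ∈ I ∧ p (i a) = a) → (∀ x ∈ I, p x ∈ K) →
      ¬ Complemented I := by
    rintro E _ _ I i p h1 h2 ⟨P, hP1, hP2⟩
    refine hA ((p.comp (P.comp i) : A →L[ℂ] A) : A →ₗ[ℂ] A) ‖p.comp (P.comp i)‖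
      (fun a => (p.comp (P.comp i)).le_opNorm a) (fun a => h2 _ (hP1 _)) fun a ha => ?_
    show p (P (i a)) = a
    rw [hP2 _ (h1 a ha).1, (h1 a ha).2]
  refine ⟨A, _, inferInstance, K, hK, hφ, fun E _ _ I i p => key I i p, ?_⟩
  intro X _ _ _ D _ J hJ
  refine ⟨⟨?_, ?_⟩, ?_, ?_⟩
  · have h1 : (idealOf K X J : Set (C(X, A) × D)) =
        (⋂ x : X, (fun f : C(X, A) × D => f.1 x) ⁻¹' (K : Set A)) ∩ Prod.snd ⁻¹' (J : Set D) := by
      ext f
      simp only [Set.mem_inter_iff, Set.mem_iInter, Set.mem_preimage]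
      rfl
    rw [h1]
    refine IsClosed.inter (isClosed_iInter fun x => ?_) (hJ.1.preimage continuous_snd)
    exact hK.1.preimage ((continuous_eval_const x).comp continuous_fst)
  · rintro a ⟨ha1, ha2⟩ b
    exact ⟨⟨fun x => (hK.2 _ (ha1 x) _).1, (hJ.2 _ ha2 _).1⟩,
      ⟨fun x => (hK.2 _ (ha1 x) _).2, (hJ.2 _ ha2 _).2⟩⟩
  · rintro ⟨P, hP1, hP2⟩
    obtain ⟨x0⟩ := ‹Nonempty X›
    let ι : A →ₗ[ℂ] C(X, A) × D :=
      { toFun := fun a => (ContinuousMap.const X a, 0)
        map_add' := fun a b => by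
          ext <;> simp
        map_smul' := fun t a => by
          ext <;> simp }
    let q : A →ₗ[ℂ] A :=
      { toFun := fun a => (P (ι a)).1 x0
        map_add' := fun a b => by
          rw [map_add, map_add]
          rfl
        map_smul' := fun t a => by
          rw [map_smul, map_smul]
          rfl }
    refine hA q ‖P‖ (fun a => ?_) (fun a => (hP1 (ι a)).1 x0) fun a ha => ?_
    · have h1 : ‖(P (ι a)).1 x0‖ ≤ ‖(P (ι a)).1‖ := ContinuousMap.norm_coe_le_norm _ x0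
      have h2 : ‖(P (ι a)).1‖ ≤ ‖P (ι a)‖ := norm_fst_le _
      have h3 := P.le_opNorm (ι a)
      have h4 : ‖ι a‖ ≤ ‖a‖ := by
        refine max_le ?_ ?_
        · refine (ContinuousMap.norm_le _ (norm_nonneg a)).2 fun x => ?_
          rfl
        · show ‖(0 : D)‖ ≤ ‖a‖
          rw [norm_zero]
          exact norm_nonneg a
      have h5 : ‖P‖ * ‖ι a‖ ≤ ‖P‖ * ‖a‖ := mul_le_mul_of_nonneg_left h4 (norm_nonneg _)
      exact h1.trans (h2.trans (h3.trans h5))
    · have h1 : ι a ∈ idealOf K X J := ⟨fun _ => ha, J.zero_mem⟩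
      show (P (ι a)).1 x0 = a
      rw [hP2 _ h1]
      rfl
  · intro _ _
    let _ := TopologicalSpace.metrizableSpaceMetric X
    have : SecondCountableTopology A := UniformSpace.secondCountable_of_separable A
    have : SecondCountableTopology D := UniformSpace.secondCountable_of_separable D
    infer_instance

end Pool.Agent.Results.MP_3437a9_an.UncomplementedIdeals
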